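import Pool.Agent.X306.EM.KPt

/-!
# The de Rham-Betti torsor of 1-motives built from tori and elliptic curves without complex multiplication

Let `E_c = ℂ / Λ_c` (`c` in a finite set `C`) be elliptic curves over the field of algebraic numbers `ℚ̄` (`g₂(Λ_c)` and
`g₃(Λ_c)` are algebraic) without complex multiplication, pairwise non-isogenous, let `P_{c,r}` (`r ∈ R c`) be points of
`E_c(ℚ̄)` which are linearly independent over `ℤ`, with elliptic logarithms `u_{c,r}`, and let `l_j` (`j ∈ J`) be
logarithms of multiplicatively independent algebraic numbers `α_j`. We consider the 1-motive (a Nori motive over `ℚ̄`, and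
over a number field over which everything is defined)

  `M = ⨁_c [ℤ^(R c) → E_c] ⊕ [ℤ^J → 𝔾ₘ]`,

the sum of the 1-motives given by the points `P_{c,r}` and the numbers `α_j`. Every 1-motive `[ℤ^r → 𝔾ₘ^s × A]` over `ℚ̄`,
where `A` is isogenous to a product of elliptic curves without complex multiplication, generates the same tensor
category as an `M` of this form. The periods of `M` are the entries of the block matrix `periodMatrix`:

* the periods and quasi-periods of `E_c`;
* `u_{c,r}` and `ζ(u_{c,r})` (integrals of the first and second kind from `0` to `P_{c,r}`, up to algebraic numbers);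
* `2πi` and the logarithms `l_j`.

By André the motivic Galois group of `M` is its Mumford-Tate group. It consists of the block matrices `block X Y μ v`
with `det X_c = μ ≠ 0` and arbitrary `Y_c`, `v` (acting on the rows), and the torsor of motivic periods `Ω^mot` consists
of the matrices `block X Y μ v` with `μ ≠ 0` and `det X_c / μ = det P_c / 2πi`, where `P_c` is the period matrix of
`E_c`; by Legendre's relation the quotient on the right is a nonzero integer (in fact `1` or `-1`).

The period conjecture says that `Ω^mot` is the Zariski closure of the period matrix over `ℚ̄`. We consider the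
de Rham-Betti torsor `Ω^dRB` between the two: it is the intersection of the torsors `Ω_α` of the isomorphisms which
respect a de Rham-Betti class `α` in a tensor space `M^(⊗p) ⊗ (M^∨)^(⊗q)`.

**Theorem.** Let `T` be any set of invertible matrices which contains the period matrix, is defined by polynomials with
algebraic coefficients and closed under `x y⁻¹ z` (a `ℚ̄`-subtorsor of `Iso(M_dR, M_B)`), and such that the group of the
`x y⁻¹`, `x, y ∈ T`, is defined by polynomials with rational coefficients. Then `T` contains `Ω^mot`.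

The torsors `Ω_α` are of this kind (the group is the stabilizer of the Betti realization of `α`, a vector with rational
coordinates), and so is `Ω^dRB`. Therefore `Ω^dRB = Ω^mot`, the group of automorphisms of the Betti realization which
respect all de Rham-Betti classes is the motivic Galois group, and every de Rham-Betti class in a tensor space of `M` is
motivated. (This is the mixed analogue of the theorem of Kreutz, Shen and Vial for products of elliptic curves.)

## The proof

Everything is proved from scratch in Lean, including the following theorems of transcendence theory.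

1. Baker's theorem on linear forms in logarithms (`Pool.Agent.H297R2.InBakerThm`); the linear independence over `ℚ̄` of
   `1`, the periods and the integrals `s ζ(u) + ρ u` on one elliptic curve (`Pool.Agent.W245.EB.RedZ`).
2. If the period matrices of `E` and `E'` satisfy `A P = P' B` with `A` rational and `B` algebraic, `E` and `E'` are
   isogenous (`Pool.Agent.X306.EM.Pair`). The proof: the theorem of Schneider and Lang on Cartesian products for the
   functions `℘'(z)`, `℘(w)` and `ζ'(z) + ρ z + σ w` of two variables (`Pool.Agent.X306.EM.Crm`).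
3. The Lie algebra of the group of `T` is rational on the Betti side and on the de Rham side, and contains all
   logarithmic derivatives of the period matrix. From 1 one gets `sl₂` for each curve, from 2 and Goursat's lemma the
   product of the `sl₂` (`Pool.Agent.X306.EM.Gour`, `Pool.Agent.X306.EM.Main`), from 1 and the weights the unipotent
   part (`Pool.Agent.TH119.MX`, by helper119, on an algebraic frame by helper437 and others; the library contained this
   part under the hypothesis of linear independence, and for pairs of curves under the hypothesis that the two Lie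
   algebras are independent).
-/

set_option autoImplicit false

open scoped PeriodPair
open Matrix

noncomputable section

namespace Pool.Agent.Results.MP_5d33ca_ag.EllipticToricDeRhamBetti

/-- The Weierstrass zeta function `ζ(z) = ∑ (1/(z-l) + 1/l + z/l²)`, the sum over the lattice (the summand of `l = 0` is
`1/z`, since `1/0 = 0` in Lean). -/
def ζ (L : PeriodPair) (z : ℂ) : ℂ := ∑' l : L.lattice, (1 / (z - l) + 1 / l + z / l ^ 2)

/-- The quasi-period `η(w) = ζ(z + w) - ζ(z)` of `w ∈ Λ` (for `z = ω₁ / 2`, which is not in the lattice). -/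
def η (L : PeriodPair) (w : ℂ) : ℂ := ζ L (L.ω₁ / 2 + w) - ζ L (L.ω₁ / 2)

/-- The rows (Betti side) and columns (de Rham side) of the period matrices: for each curve `c` two cycles and the paths
from `0` to the points `P_{c,r}`; the circle, and the paths from `1` to `α_j`. -/
abbrev Idx (C : Type) (R : C → Type) (J : Type) : Type := (Σ c : C, Fin 2 ⊕ R c) ⊕ (Unit ⊕ J)

variable {C : Type} [Fintype C] [DecidableEq C] {R : C → Type} [∀ c, Fintype (R c)] [∀ c, DecidableEq (R c)]
  {J : Type} [Fintype J] [DecidableEq J]

/-- The block diagonal matrix with the blocks `(X_c, 0; Y_c, 1)` for `c ∈ C` and `(μ, 0; v, 1)`. -/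
def block (X : C → Matrix (Fin 2) (Fin 2) ℂ) (Y : (c : C) → Matrix (R c) (Fin 2) ℂ) (μ : ℂ) (v : J → ℂ) :
    Matrix (Idx C R J) (Idx C R J) ℂ :=
  fromBlocks (blockDiagonal' fun c => fromBlocks (X c) 0 (Y c) 1) 0 0
    (fromBlocks (Matrix.of fun _ _ => μ) 0 (Matrix.of fun j _ => v j) 1)

/-- The period matrix `(ω₁, η₁; ω₂, η₂)` of an elliptic curve. -/
def ellipticPeriods (L : PeriodPair) : Matrix (Fin 2) (Fin 2) ℂ := !![L.ω₁, η L L.ω₁; L.ω₂, η L L.ω₂]

/-- The period matrix of `M`. -/
def periodMatrix (L : C → PeriodPair) (u : (c : C) → R c → ℂ) (l : J → ℂ) : Matrix (Idx C R J) (Idx C R J) ℂ :=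
  block (fun c => ellipticPeriods (L c)) (fun c => Matrix.of fun r => ![u c r, ζ (L c) (u c r)])
    (2 * Real.pi * Complex.I) l

/-- The torsor of motivic periods of `M`. -/
def motivicTorsor (L : C → PeriodPair) : Set (Matrix (Idx C R J) (Idx C R J) ℂ) :=
  {x | ∃ X Y μ v, μ ≠ 0 ∧ (∀ c, (X c).det * (2 * Real.pi * Complex.I) = μ * (ellipticPeriods (L c)).det) ∧
    x = block X Y μ v}

variable {B : Type} [Fintype B] [DecidableEq B]

/-- `T` is the set of the complex points of a nonempty subtorsor over the algebraic numbers: a set of invertible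
matrices, closed under `x y⁻¹ z`, defined by polynomials with algebraic coefficients. -/
def IsTorsor (T : Set (Matrix B B ℂ)) : Prop :=
  (∀ x ∈ T, ∀ y ∈ T, ∀ z ∈ T, x * y⁻¹ * z ∈ T) ∧
  ∃ I : Set (MvPolynomial (B × B) ℂ), (∀ p ∈ I, ∀ m, IsAlgebraic ℚ (p.coeff m)) ∧
    ∀ x : Matrix B B ℂ, x ∈ T ↔ IsUnit x ∧ ∀ p ∈ I, MvPolynomial.eval (fun b => x b.1 b.2) p = 0

/-- The group of the matrices `x y⁻¹`, `x, y ∈ T`, is defined by polynomials with rational coefficients. -/
def GroupOverQ (T : Set (Matrix B B ℂ)) : Prop :=
  ∃ I : Set (MvPolynomial (B × B) ℂ), (∀ p ∈ I, ∀ m, ∃ q : ℚ, p.coeff m = q) ∧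
    ∀ g : Matrix B B ℂ, (∃ x ∈ T, ∃ y ∈ T, g = x * y⁻¹) ↔ IsUnit g ∧
      ∀ p ∈ I, MvPolynomial.eval (fun b => g b.1 b.2) p = 0

/-- **The de Rham-Betti torsor is the torsor of motivic periods.** `L c` are lattices with algebraic invariants, without
complex multiplication and pairwise non-isogenous, `u c r` are elliptic logarithms of algebraic points of `E_c` which are
linearly independent over `ℤ` (`hui`), `l j` are logarithms of multiplicatively independent algebraic numbers. Every
subtorsor `T` over the algebraic numbers which contains the period matrix and whose group is defined over `ℚ` contains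
the torsor of motivic periods. -/
theorem result (L : C → PeriodPair) (hg : ∀ c, IsAlgebraic ℚ (L c).g₂ ∧ IsAlgebraic ℚ (L c).g₃)
    (hCM : ∀ c, ∀ α : ℂ, (∀ w ∈ (L c).lattice, α * w ∈ (L c).lattice) → ∃ n : ℤ, α = n)
    (hiso : ∀ c c', c ≠ c' → ∀ α : ℂ, (∀ w ∈ (L c).lattice, α * w ∈ (L c').lattice) → α = 0)
    (u : (c : C) → R c → ℂ) (hu : ∀ c r, u c r ∉ (L c).lattice ∧ IsAlgebraic ℚ (℘[L c] (u c r)))
    (hui : ∀ c, ∀ n : R c → ℤ, ∑ r, (n r : ℂ) * u c r ∈ (L c).lattice → n = 0)
    (l : J → ℂ) (hl : ∀ j, IsAlgebraic ℚ (Complex.exp (l j)))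
    (hli : ∀ n : J → ℤ, Complex.exp (∑ j, (n j : ℂ) * l j) = 1 → n = 0)
    (T : Set (Matrix (Idx C R J) (Idx C R J) ℂ)) (hT : IsTorsor T) (hG : GroupOverQ T)
    (hc : periodMatrix L u l ∈ T) : motivicTorsor L ⊆ T := by
  rintro _ ⟨X, Y, μ, v, hμ, hdet, rfl⟩
  have hT' : Pool.Agent.TH127.PT.IsSubtorsor Pool.Agent.W245.EB.QB T := by
    obtain ⟨h1, I, h2, h3⟩ := hT
    exact ⟨fun x hx => ((h3 x).1 hx).1, h1, I, fun p hp m => Pool.Agent.W245.EB.mem_QB.2 (h2 p hp m), h3⟩
  obtain ⟨I, hI1, hI2⟩ := hG
  obtain ⟨H, hH, hHT, A, A', hA, hA', hPA⟩ := Pool.Agent.X306.EM.grp_of_torsor (F := Pool.Agent.X306.EM.QQ) hT'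
    ⟨I, fun p hp m => by
      obtain ⟨q, hq⟩ := hI1 p hp m
      exact Pool.Agent.X306.EM.mem_QQ.2 ⟨q, hq.symm⟩, hI2⟩ hc
  set D := Pool.Agent.X306.EM.pers L u l with hD
  have hpm : periodMatrix L u l = Pool.Agent.TH119.MX.pm D := by
    unfold periodMatrix block Pool.Agent.TH119.MX.pm Pool.Agent.TH119.MX.bm
    simp only [one_smul]
    congr 1
  have hw : (2 * Real.pi * Complex.I : ℂ) ≠ 0 := Complex.two_pi_I_ne_zero
  have hPdet : ∀ c, (D.P c).det * (D.P' c).det = 1 := fun c => by
    rw [← Matrix.det_mul, D.PP', Matrix.det_one]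
  have hmem := Pool.Agent.X306.EM.main_rat (fun c => (hg c).1) (fun c => (hg c).2) hCM hiso hu hui hl hli hH hA hA'
    (by rw [← hD, ← hpm]; exact hPA)
    (x := (fun c => X c * D.P' c, fun c => (Y c - D.U c) * D.P' c, μ / (2 * Real.pi * Complex.I),
      fun j => (v j - l j) / (2 * Real.pi * Complex.I)))
    (fun c => by
      change (X c * D.P' c).det = μ / (2 * Real.pi * Complex.I)
      have h1 := hdet c
      change (X c).det * (2 * Real.pi * Complex.I) = μ * (D.P c).det at h1
      rw [Matrix.det_mul, eq_div_iff hw]
      calc (X c).det * (D.P' c).det * (2 * Real.pi * Complex.I) =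
          ((X c).det * (2 * Real.pi * Complex.I)) * (D.P' c).det := by ring
        _ = μ * ((D.P c).det * (D.P' c).det) := by rw [h1]; ring
        _ = μ := by rw [hPdet, mul_one])
    (div_ne_zero hμ hw)
  have h1 := hHT _ hmem
  rw [hpm, Pool.Agent.TH119.MX.pm, Pool.Agent.TH119.MX.bm_mul] at h1
  refine (congrArg (· ∈ T) ?_).mp h1
  unfold Pool.Agent.TH119.MX.bm Pool.Agent.TH119.MX.bp block
  simp only [mul_one, one_smul]
  have e1 : ∀ c, X c * D.P' c * D.P c = X c := fun c => by
    rw [Matrix.mul_assoc, D.P'P, Matrix.mul_one]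
  have e2 : ∀ c, (Y c - D.U c) * D.P' c * D.P c + D.U c = Y c := fun c => by
    rw [Matrix.mul_assoc, D.P'P, Matrix.mul_one, sub_add_cancel]
  congr 1
  · congr 1
    funext c
    rw [e1, e2]
  · congr 1
    · ext _ _
      change μ / (2 * Real.pi * Complex.I) * (2 * Real.pi * Complex.I) = μ
      exact div_mul_cancel₀ _ hw
    · ext j _
      change (v j - l j) / (2 * Real.pi * Complex.I) * (2 * Real.pi * Complex.I) + 1 * l j = v j
      rw [div_mul_cancel₀ _ hw, one_mul, sub_add_cancel]

end Pool.Agent.Results.MP_5d33ca_ag.EllipticToricDeRhamBetti
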