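import Pool.Agent.X306.AV.Grp

/-!
# The unipotent part of the de Rham-Betti group of the 1-motives `[ℤ^r → A × 𝔾ₘ^s]`, for every abelian variety `A`

Let `A` be an abelian variety over the field `ℚ̄` of algebraic numbers, of any dimension `g`, simple or not, with or
without complex multiplication, let `P_r` (`r ∈ R`) be arbitrary points of `A(ℚ̄)` with abelian logarithms
`u_r ∈ ℂ^g = Lie A`, and let `l_j` (`j ∈ J`) be arbitrary logarithms of algebraic numbers `α_j`. We consider the
1-motive (a Nori motive over a number field over which everything is defined)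

  `M = [ℤ^R → A] ⊕ [ℤ^J → 𝔾ₘ]`

given by the points `P_r` and the numbers `α_j` (every 1-motive `[ℤ^r → 𝔾ₘ^s × A]` generates the same tensor category as
one of this form). The periods of `M` are the entries of the block matrix `periodMatrix`:

* the periods and quasi-periods of `A` (the integrals of the differentials of the first and second kind over the
  cycles);
* `u_r` and `e_r`, the integrals of the differentials of the first and second kind from `0` to `P_r`; if
  `θ₀(u_r) ≠ 0` one can take `e_{r,k} = (∂_k log θ₀)(u_r)`. The theorem holds for arbitrary complex numbers `e_{r,k}`;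
* `2πi` and the logarithms `l_j`.

The motivic Galois group `G` of `M` is its Mumford-Tate group (André). It acts on the Betti realization by block
matrices, and its unipotent part `W_{-1} G` (the kernel of the action on `H_1(A) ⊕ ℚ(1)`) has been determined by Ribet,
André, Bertrand and Jossen: it consists of the matrices which replace the path from `0` to `P_r` by its sum with
`N_r ∈ H_1(A, ℂ)` and the path from `1` to `α_j` by its sum with `v_j` times the circle, where the `N_r` satisfy all the
linear relations `∑ Q_r N_r = 0` with `Q_r ∈ End A` such that `∑ Q_r P_r = 0`, and the `v_j` the relations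
`∑ m_j v_j = 0` with `∏ α_j ^ m_j = 1`. This is the set `unipotentPart`.

**Theorem.** Let `T` be any set of invertible matrices which contains the period matrix, is defined by polynomials with
algebraic coefficients and closed under `x y⁻¹ z` (a `ℚ̄`-subtorsor of `Iso(M_dR, M_B)`), and such that the group of the
`x y⁻¹`, `x, y ∈ T`, is defined by polynomials with rational coefficients. Then `T` is stable under the left
multiplication by `W_{-1} G`.

The period conjecture says that the torsor of motivic periods `Ω^mot` is the Zariski closure of the period matrix over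
`ℚ̄`; the de Rham-Betti torsor `Ω^dRB` is between the two. It is the intersection of the torsors of the isomorphisms
which respect a de Rham-Betti class in a tensor space `M^(⊗p) ⊗ (M^∨)^(⊗q)`, so it is a `T` as in the theorem. Therefore
`W_{-1} Ω^dRB = W_{-1} Ω^mot` for all these 1-motives, and `Ω^dRB(M) = Ω^mot(M)` if and only if the same holds for the
pure motive `H_1(A) ⊕ ℚ(1)`: the unipotent half of the conjecture that all de Rham-Betti classes are motivated is true
for them without any hypothesis on `A` or on the points.

## The data

`AbVar g` is the description of an abelian variety over `ℚ̄` by theta functions (in `Pool.Agent.Y102.AVDefs`, where the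
existence of such data for every abelian variety over `ℚ̄` is explained; no hypothesis on the periods is made). The
structure `DefinedOver A F` says that `A`, its embedding and its endomorphisms are defined over the number field `F`:
`points A F` is the inverse image in `ℂ^g` of the set `A(F)`, which is a group and stable under the endomorphisms, and the
differentials `d z_k` are defined over `F`, which means that `θ_i ∂_k θ_j - θ_j ∂_k θ_i` is a quadratic form in the `θ`s
with coefficients in `F` (as the embedding is projectively normal).

## The proof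

1. The Lie algebra of the group of `T` is defined over `ℚ` and contains all logarithmic derivatives of the period
   matrix (`Pool.Agent.Y123.ST`, `Pool.Agent.X306.AV.Grp`). Its image `𝔥` in `End H_1(A, ℚ)` acts semisimply and commutes
   only with the endomorphisms of `A` (up to isogeny), by the theorem of Schneider and Lang and the positivity of the
   Riemann form (`Pool.Agent.Y102`). By the non-degeneracy of the trace form there is an element of the Lie algebra which
   is central in `𝔥` and whose multiplier is not zero (`Pool.Agent.X306.AV.Lie`); it separates the weights, and the Lie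
   algebra is the sum of a reductive part, of a part `𝔲_A` of weight `-1` and of a part `𝔲_J` of weight `-2` (`Uni`).
2. `𝔲_A` is the set of the solutions of linear equations `∑ a_r Y_r = 0` with `a_r` commuting with `𝔥` (`Mod`), so with
   `a_r` in `End A ⊗ ℚ`. The derivations of `ℂ` over `ℚ̄` show that each such equation gives a vector
   `z = ∑ a_r u_r - λ`, `λ ∈ Λ ⊗ ℚ`, with algebraic coordinates (`Alg`).
3. The theorem of Lang: a vector of `Lie A` with algebraic coordinates whose image in `A` is an algebraic point is zero
   (`SLp`; the proof is the theorem of Schneider and Lang for the functions `t` and `θ_i(t z) / ∑ c_j θ_j(t z)`, which are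
   algebraically independent by the recurrence of the line `t z` modulo the lattice, `Rec`). So `∑ a_r u_r = λ`, which is
   a relation between the points `P_r` (`Rel`).
4. The same argument with the theorem of Hermite and Lindemann for `𝔲_J`.
-/

set_option autoImplicit false

open Matrix Pool.Agent.Y102

noncomputable section

namespace Pool.Agent.Results.MP_5d33ca_ag.OneMotivesUnipotentPart

/-- The rows (Betti side): the `2g` cycles of `A` and the paths from `0` to the points `P_r`; the circle and the paths
from `1` to `α_j`. The columns (de Rham side) have the same indices. -/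
abbrev Idx (g : ℕ) (R J : Type) : Type := (Fin (2 * g) ⊕ R) ⊕ (Unit ⊕ J)

variable {g : ℕ} {R : Type} [Fintype R] [DecidableEq R] {J : Type} [Fintype J] [DecidableEq J]

/-- The block diagonal matrix with the blocks `(X, 0; Y, 1)` and `(μ, 0; v, 1)`. -/
def block (X : Matrix (Fin (2 * g)) (Fin (2 * g)) ℂ) (Y : Matrix R (Fin (2 * g)) ℂ) (μ : ℂ) (v : J → ℂ) :
    Matrix (Idx g R J) (Idx g R J) ℂ :=
  fromBlocks (fromBlocks X 0 Y 1) 0 0 (fromBlocks (Matrix.of fun _ _ => μ) 0 (Matrix.of fun j _ => v j) 1)

/-- The index set `Fin (2 * g)` of the de Rham basis: first the `g` differentials `d z_k` of the first kind, then the `g`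
differentials `d (∂_k log θ₀)` of the second kind. -/
def split (g : ℕ) : Fin (2 * g) ≃ Fin g ⊕ Fin g := (finCongr (two_mul g)).trans finSumFinEquiv.symm

variable (A : AbVar g)

/-- The period matrix of `A`: the integrals of the differentials `d z_k` and `d (∂_k log θ₀)` over the cycles `lam i`. -/
def abelianPeriods : Matrix (Fin (2 * g)) (Fin (2 * g)) ℂ :=
  Matrix.of fun i j => Sum.elim (fun k => A.lam i k) (fun k => A.η i k) (split g j)

/-- The period matrix of `M`. -/
def periodMatrix (u e : R → Fin g → ℂ) (l : J → ℂ) : Matrix (Idx g R J) (Idx g R J) ℂ :=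
  block (abelianPeriods A) (Matrix.of fun r j => Sum.elim (u r) (e r) (split g j)) (2 * Real.pi * Complex.I) l

/-- The lattice of periods of `A`. -/
def lattice : Submodule ℤ (Fin g → ℂ) := Submodule.span ℤ (Set.range A.lam)

/-- The inverse image in `ℂ^g` of `A(F)`: the vectors `z` such that the point with the homogeneous coordinates `θ_i(z)`
is defined over `F`. -/
def points (F : IntermediateField ℚ ℂ) : Set (Fin g → ℂ) := {z | ∃ i, A.θ i z ≠ 0 ∧ ∀ j, A.θ j z / A.θ i z ∈ F}

/-- `A`, with its embedding and its endomorphisms, is defined over the number field `F`. -/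
structure DefinedOver (F : IntermediateField ℚ ℂ) : Prop where
  numberField : FiniteDimensional ℚ F
  /-- the invariant differentials `d z_k` are defined over `F` -/
  differentials : ∀ k i j, ∃ a : Fin (A.N + 1) → Fin (A.N + 1) → ℂ, (∀ p q, a p q ∈ F) ∧
    ∀ z, A.θ i z * pd k (A.θ j) z - A.θ j z * pd k (A.θ i) z = ∑ p, ∑ q, a p q * (A.θ p z * A.θ q z)
  /-- the sum of two points over `F` is a point over `F` -/
  add : ∀ z ∈ points A F, ∀ w ∈ points A F, z + w ∈ points A F
  /-- the endomorphisms are defined over `F` -/
  endo : ∀ Q : (Fin g → ℂ) →ₗ[ℂ] (Fin g → ℂ), (∀ w ∈ lattice A, Q w ∈ lattice A) → ∀ z ∈ points A F, Q z ∈ points A F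

/-- The unipotent part `W_{-1} G` of the motivic Galois group: the matrices `block 1 N 1 v`, where `N` satisfies all
relations `∑ Q_r N_r = 0` with `Q_r ∈ End A`, `∑ Q_r P_r = 0` (`m_r` is the matrix of `Q_r` for the basis `lam` of the
lattice), and `v` all relations `∑ m_j v_j = 0` with `∏ α_j ^ m_j = 1`. -/
def unipotentPart (u : R → Fin g → ℂ) (l : J → ℂ) : Set (Matrix (Idx g R J) (Idx g R J) ℂ) :=
  {x | ∃ N v,
    (∀ (Q : R → (Fin g → ℂ) →ₗ[ℂ] (Fin g → ℂ)) (m : R → Matrix (Fin (2 * g)) (Fin (2 * g)) ℤ),
      (∀ r j, Q r (A.lam j) = ∑ i, (m r j i : ℂ) • A.lam i) → ∑ r, Q r (u r) ∈ lattice A →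
        ∀ i, ∑ r, ∑ j, N r j * (m r j i : ℂ) = 0) ∧
    (∀ m : J → ℤ, Complex.exp (∑ j, (m j : ℂ) * l j) = 1 → ∑ j, (m j : ℂ) * v j = 0) ∧
    x = block 1 N 1 v}

variable {B : Type} [Fintype B] [DecidableEq B]

/-- `T` is the set of the complex points of a subtorsor over the algebraic numbers: a set of invertible matrices, closed
under `x y⁻¹ z`, defined by polynomials with algebraic coefficients. -/
def IsTorsor (T : Set (Matrix B B ℂ)) : Prop :=
  (∀ x ∈ T, ∀ y ∈ T, ∀ z ∈ T, x * y⁻¹ * z ∈ T) ∧
  ∃ I : Set (MvPolynomial (B × B) ℂ), (∀ p ∈ I, ∀ m, IsAlgebraic ℚ (p.coeff m)) ∧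
    ∀ x : Matrix B B ℂ, x ∈ T ↔ IsUnit x ∧ ∀ p ∈ I, MvPolynomial.eval (fun b => x b.1 b.2) p = 0

/-- The group of the matrices `x y⁻¹`, `x, y ∈ T`, is defined by polynomials with rational coefficients. -/
def GroupOverQ (T : Set (Matrix B B ℂ)) : Prop :=
  ∃ I : Set (MvPolynomial (B × B) ℂ), (∀ p ∈ I, ∀ m, ∃ q : ℚ, p.coeff m = q) ∧
    ∀ g : Matrix B B ℂ, (∃ x ∈ T, ∃ y ∈ T, g = x * y⁻¹) ↔ IsUnit g ∧
      ∀ p ∈ I, MvPolynomial.eval (fun b => g b.1 b.2) p = 0

/-- **The unipotent part of the de Rham-Betti torsor is maximal.** `A` is an arbitrary abelian variety over the algebraic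
numbers, defined over the number field `F` together with its endomorphisms, the `u r` are logarithms of arbitrary points
of `A(F)`, the `l j` logarithms of arbitrary algebraic numbers. Every subtorsor `T` over the algebraic numbers which
contains the period matrix and whose group is defined over `ℚ` is stable under the unipotent part of the motivic Galois
group. -/
theorem result (A : AbVar g) (F : IntermediateField ℚ ℂ) (hF : DefinedOver A F) (u e : R → Fin g → ℂ)
    (hu : ∀ r, u r ∈ points A F) (l : J → ℂ) (hl : ∀ j, IsAlgebraic ℚ (Complex.exp (l j)))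
    (T : Set (Matrix (Idx g R J) (Idx g R J) ℂ)) (hT : IsTorsor T) (hG : GroupOverQ T)
    (hc : periodMatrix A u e l ∈ T) : ∀ n ∈ unipotentPart A u l, ∀ x ∈ T, n * x ∈ T := by
  rintro _ ⟨N, v, hN, hv, rfl⟩
  have hT' : Pool.Agent.TH127.PT.IsSubtorsor Pool.Agent.W245.EB.QB T := by
    obtain ⟨h1, I, h2, h3⟩ := hT
    exact ⟨fun x hx => ((h3 x).1 hx).1, h1, I, fun p hp m => Pool.Agent.W245.EB.mem_QB.2 (h2 p hp m), h3⟩
  have hG' : Pool.Agent.X306.RL.GDef Pool.Agent.X306.EM.QQ T := by
    obtain ⟨I, hI1, hI2⟩ := hG
    exact ⟨I, fun p hp m => by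
      obtain ⟨q, hq⟩ := hI1 p hp m
      exact Pool.Agent.X306.EM.mem_QQ.2 ⟨q, hq.symm⟩, hI2⟩
  have hlam : ∀ i, A.per (A.bas i) = A.lam i := fun i => by
    rw [Pool.Agent.X306.AV.bas_eq, Pool.Agent.X306.AV.lam_per]
  have heta : ∀ i, A.eta (A.bas i) = A.η i := fun i => by
    rw [Pool.Agent.X306.AV.bas_eq]
    unfold AbVar.eta
    rw [Fintype.linearCombination_apply, Finset.sum_eq_single i]
    · rw [Pi.single_eq_same, one_smul]
    · intro k _ hk
      rw [Pi.single_eq_of_ne hk, zero_smul]
    · intro h
      exact absurd (Finset.mem_univ _) h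
  have hPA : abelianPeriods A = Pool.Agent.X306.AV.PA A := by
    ext i j
    change Sum.elim (fun k => A.lam i k) (fun k => A.η i k) (split g j) = A.dR (split g j) (A.bas i)
    rcases split g j with k | k
    · change A.lam i k = A.per (A.bas i) k
      rw [hlam]
    · change A.η i k = A.eta (A.bas i) k
      rw [heta]
  have hpm : periodMatrix A u e l = Pool.Agent.X306.AV.pm (Pool.Agent.X306.AV.pers A u e l) := by
    unfold periodMatrix block Pool.Agent.X306.AV.pm Pool.Agent.X306.AV.bm
    rw [hPA]
    simp only [one_smul]
    rfl
  have hb : block (1 : Matrix (Fin (2 * g)) (Fin (2 * g)) ℂ) N 1 v = Pool.Agent.X306.AV.bm (1, N, 1, v) 1 := by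
    unfold block Pool.Agent.X306.AV.bm
    simp only [one_smul]
  rw [hb]
  rw [hpm] at hc
  exact Pool.Agent.X306.AV.main hT' hG' hc ⟨hF.numberField, hF.differentials, hF.add, hF.endo⟩ hu hl hN hv

end Pool.Agent.Results.MP_5d33ca_ag.OneMotivesUnipotentPart
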