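import Pool.Agent.X306.AV.NC

/-!
# 1-motives `[ℤ^R → G]` with `G` a non-split semiabelian variety: integrals of the first, second and third kind

Let `A` be an abelian variety of dimension `g` over the field `ℚ̄` of algebraic numbers, given by theta functions (`AbVar`,
`Pool.Agent.Y102.AVDefs`). Points `Q_j ∈ A(ℚ̄)` (`j ∈ J`) with logarithms `q_j ∈ ℂ^g` define, by the polarization of `A`,
algebraically trivial line bundles on `A` and an extension

  `0 → 𝔾ₘ^J → G → A → 0`

(up to isogeny every extension of `A` by a torus over `ℚ̄` is of this form), and points `P̃_r ∈ G(ℚ̄)` (`r ∈ R`) over points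
`P_r ∈ A(ℚ̄)` with logarithms `u_r` define the 1-motive `M = [ℤ^R → G]`, a Nori motive. (Up to duality and isogeny the
1-motives are the `H_1` of curves relative to finitely many points: `G` is the generalised Jacobian of an open curve.)
The de Rham realisation of `G` has the basis of the `g` differentials of the first kind `dz_k`, the `g` differentials of
the second kind `d (∂_k log θ₀)`, and the `J` differentials of the third kind

  `ξ_j = d log (θ₀(z - q_j) / θ₀(z)) + ∑_k f_{jk} dz_k`,

where the constants `f_{jk}` (values of `∂_k log θ₀` at `-q_j`, up to sign and algebraic numbers) make `ξ_j` algebraic. The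
periods of `M` are the entries of the matrix `periodMatrix` with the rows

* `(λ_{ik} | η_{ik} | ∑_k (f_{jk} λ_{ik} - η_{ik} q_{jk}) | 0)` for a suitable lift to `G` of the cycle `i` of `A`;
* `(0 | 0 | 2πi δ_{jj'} | 0)` for the circles of the torus;
* `(u_{rk} | e_{rk} | L_{rj} | δ_{rr'})` for a path from `0` to `P̃_r` in `G`.

The theorem is true for arbitrary complex numbers `e_{rk}`, `f_{jk}` and `L_{rj}`; only `A` and the points `P_r`, `Q_j` must be
algebraic.

An element of the unipotent radical of the motivic Galois group (or of the Mumford-Tate group) of `M` is a matrix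
`block 1 (columns A Z) 1 Y w`: it moves the path from `0` to `P_r` in `A` by `Y_r ∈ H_1(A, ℂ)` and the path from `0` to `Q_j` by
`Z_j ∈ H_1(A, ℂ)`; `Y`, `Z` satisfy all `End A`-linear relations between the points `P_r`, `Q_j` (`IsRelated`), and `w` is in
the part of weight `-2`, of dimension at most `R J`. The commutator of the elements given by `(Y, Z)` and `(Y', Z')` is
the element of weight `-2` with `w_{rj} = ω(Z'_j, Y_r) - ω(Z_j, Y'_r)`, where `ω` is the Riemann form.

**Theorem.** Let `T` be a `ℚ̄`-subtorsor of `Iso(M_dR, M_B)` which contains the period matrix and whose group (the matrices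
`x y⁻¹`, `x, y ∈ T`) is defined over `ℚ`; for example the de Rham-Betti torsor of `M`.

1. For all `(Y, Z)` which satisfy the relations there is a `w₀` such that `T` is stable under the matrices
`block 1 (columns A Z) 1 Y (w₀ + c)`, for all `c` in the complex span of the commutators. So the part of weight `-1` of the
unipotent radical of the de Rham-Betti group is as large as possible, for every 1-motive `[ℤ^R → G]`, and its part of
weight `-2` contains all commutators.

2. If `g > 0` and the points `P_r`, `Q_j` are linearly independent over `End A`, then `T` is stable under all matrices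
`block 1 (columns A Z) 1 Y w`, a unipotent group of dimension `2 g (R + J) + R J`.

Hence in case 2 (and more generally whenever the commutators span everything) the unipotent radicals of the
de Rham-Betti group and of the motivic Galois group of `M` are the same and `Ω^dRB(M) = Ω^mot(M)` if and only if this is so
for the pure motive `H_1(A) ⊕ ℚ(1)`; no de Rham-Betti class on the tensor spaces of `M` gives a relation for the third kind
integrals `L_{rj}`. For example all this applies to the integrals of the third kind on a curve for generic poles and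
end points. The split 1-motives `[ℤ^R → A × 𝔾ₘ^J]`, for which there are no commutators and the part of weight `-2` is
determined by the theorem of Hermite and Lindemann, are in `OneMotivesUnipotentPart`.

## The proof

The rational components of the logarithmic derivatives of the period matrix are in the Lie algebra `L` of the group of `T`,
which is defined over `ℚ`. As the third kind periods of the cycles are expressed by the Riemann form, the map which
replaces the columns by rows sends `L` to a Lie algebra for the family of all the points `P_r`, `Q_j` of `A`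
(`Pool.Agent.X306.AV.sm_bS`, `good_gN`), to which the results of `OneMotivesUnipotentPart` apply (theorems of
Schneider-Lang and of Lang; `Good.uA_mem`). So all `(Y, Z)` lift to `L`; the commutators of the lifts are in `L`; and the
elements of `L`, whose cubes are zero, can be exponentiated (`exp_nil3`).
-/

set_option autoImplicit false

open Matrix Pool.Agent.Y102

noncomputable section

namespace Pool.Agent.X306.Old.SemiabelianOneMotives

/-- The rows (Betti side): the `2g` cycles of `A`, lifted to `G`, the circles of the torus, and the paths from `0` to the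
points of `G`. The columns (de Rham side) have the same indices. -/
abbrev Idx (g : ℕ) (R J : Type) : Type := (Fin (2 * g) ⊕ J) ⊕ R

variable {g : ℕ} {R : Type} [Fintype R] [DecidableEq R] {J : Type} [Fintype J] [DecidableEq J]

/-- The block matrix `(X, z, 0; 0, μ, 0; Y, w, 1)`. -/
def block (X : Matrix (Fin (2 * g)) (Fin (2 * g)) ℂ) (z : Matrix (Fin (2 * g)) J ℂ) (μ : ℂ)
    (Y : Matrix R (Fin (2 * g)) ℂ) (w : Matrix R J ℂ) : Matrix (Idx g R J) (Idx g R J) ℂ :=
  fromBlocks (fromBlocks X z 0 (μ • 1)) 0 (fromCols Y w) 1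

/-- The index set `Fin (2 * g)` of the de Rham basis of `A`: first the `g` differentials `d z_k` of the first kind, then the
`g` differentials `d (∂_k log θ₀)` of the second kind. -/
def split (g : ℕ) : Fin (2 * g) ≃ Fin g ⊕ Fin g := (finCongr (two_mul g)).trans finSumFinEquiv.symm

variable (A : AbVar g)

/-- The period matrix of `A`. -/
def abelianPeriods : Matrix (Fin (2 * g)) (Fin (2 * g)) ℂ :=
  Matrix.of fun i j => Sum.elim (fun k => A.lam i k) (fun k => A.η i k) (split g j)

/-- The periods of the differentials of the third kind. -/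
def thirdPeriods (q f : J → Fin g → ℂ) : Matrix (Fin (2 * g)) J ℂ :=
  Matrix.of fun i j => ∑ k, (f j k * A.lam i k - A.η i k * q j k)

/-- The period matrix of `M`. -/
def periodMatrix (u e : R → Fin g → ℂ) (q f : J → Fin g → ℂ) (L : Matrix R J ℂ) : Matrix (Idx g R J) (Idx g R J) ℂ :=
  block (abelianPeriods A) (thirdPeriods A q f) (2 * Real.pi * Complex.I)
    (Matrix.of fun r j => Sum.elim (u r) (e r) (split g j)) L

/-- The Riemann form on `H_1(A, ℂ)`, in the basis `lam`. -/
def riemann (v w : Fin (2 * g) → ℂ) : ℂ :=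
  ∑ a, ∑ b, v a * w b * ((∑ k, (A.η a k * A.lam b k - A.η b k * A.lam a k)) / (2 * Real.pi * Complex.I))

/-- The columns `γ ↦ ω(Z_j, γ)`, for the cycles `γ` of the basis. -/
def columns (Z : J → Fin (2 * g) → ℂ) : Matrix (Fin (2 * g)) J ℂ := Matrix.of fun i j => riemann A (Z j) (Pi.single i 1)

/-- The lattice of periods of `A`. -/
def lattice : Submodule ℤ (Fin g → ℂ) := Submodule.span ℤ (Set.range A.lam)

/-- The inverse image in `ℂ^g` of `A(F)`. -/
def points (F : IntermediateField ℚ ℂ) : Set (Fin g → ℂ) := {z | ∃ i, A.θ i z ≠ 0 ∧ ∀ j, A.θ j z / A.θ i z ∈ F}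

/-- `A`, with its embedding and its endomorphisms, is defined over the number field `F`. -/
structure DefinedOver (F : IntermediateField ℚ ℂ) : Prop where
  numberField : FiniteDimensional ℚ F
  /-- the invariant differentials `d z_k` are defined over `F` -/
  differentials : ∀ k i j, ∃ a : Fin (A.N + 1) → Fin (A.N + 1) → ℂ, (∀ p q, a p q ∈ F) ∧
    ∀ z, A.θ i z * pd k (A.θ j) z - A.θ j z * pd k (A.θ i) z = ∑ p, ∑ q, a p q * (A.θ p z * A.θ q z)
  /-- the sum of two points over `F` is a point over `F` -/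
  add : ∀ z ∈ points A F, ∀ w ∈ points A F, z + w ∈ points A F
  /-- the endomorphisms are defined over `F` -/
  endo : ∀ Q : (Fin g → ℂ) →ₗ[ℂ] (Fin g → ℂ), (∀ w ∈ lattice A, Q w ∈ lattice A) → ∀ z ∈ points A F, Q z ∈ points A F

/-- The family `(Y, Z)` of elements of `H_1(A, ℂ)` satisfies all relations `∑ E_r Y_r + ∑ E'_j Z_j = 0` with `E_r, E'_j ∈ End A`
and `∑ E_r P_r + ∑ E'_j Q_j = 0` (`m` are the matrices of the endomorphisms for the basis `lam` of the lattice). -/
def IsRelated (u : R → Fin g → ℂ) (q : J → Fin g → ℂ) (Y : R → Fin (2 * g) → ℂ) (Z : J → Fin (2 * g) → ℂ) : Prop :=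
  ∀ (E : R ⊕ J → (Fin g → ℂ) →ₗ[ℂ] (Fin g → ℂ)) (m : R ⊕ J → Matrix (Fin (2 * g)) (Fin (2 * g)) ℤ),
    (∀ s j, E s (A.lam j) = ∑ i, (m s j i : ℂ) • A.lam i) → ∑ s, E s (Sum.elim u q s) ∈ lattice A →
      ∀ i, ∑ s, ∑ j, Sum.elim Y Z s j * (m s j i : ℂ) = 0

/-- The complex span of the commutators `ω(Z'_j, Y_r) - ω(Z_j, Y'_r)`, for rational families `(Y, Z)`, `(Y', Z')` which satisfy
the relations. -/
def commutators (u : R → Fin g → ℂ) (q : J → Fin g → ℂ) : Submodule ℂ (Matrix R J ℂ) :=
  Submodule.span ℂ {c | ∃ (Y Y' : R → Fin (2 * g) → ℚ) (Z Z' : J → Fin (2 * g) → ℚ),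
    IsRelated A u q (fun r a => Y r a) (fun j a => Z j a) ∧ IsRelated A u q (fun r a => Y' r a) (fun j a => Z' j a) ∧
    c = Matrix.of fun r j =>
      riemann A (fun a => Z' j a) (fun a => Y r a) - riemann A (fun a => Z j a) (fun a => Y' r a)}

variable {B : Type} [Fintype B] [DecidableEq B]

/-- `T` is the set of the complex points of a subtorsor over the algebraic numbers: a set of invertible matrices, closed
under `x y⁻¹ z`, defined by polynomials with algebraic coefficients. -/
def IsTorsor (T : Set (Matrix B B ℂ)) : Prop :=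
  (∀ x ∈ T, ∀ y ∈ T, ∀ z ∈ T, x * y⁻¹ * z ∈ T) ∧
  ∃ I : Set (MvPolynomial (B × B) ℂ), (∀ p ∈ I, ∀ m, IsAlgebraic ℚ (p.coeff m)) ∧
    ∀ x : Matrix B B ℂ, x ∈ T ↔ IsUnit x ∧ ∀ p ∈ I, MvPolynomial.eval (fun b => x b.1 b.2) p = 0

/-- The group of the matrices `x y⁻¹`, `x, y ∈ T`, is defined by polynomials with rational coefficients. -/
def GroupOverQ (T : Set (Matrix B B ℂ)) : Prop :=
  ∃ I : Set (MvPolynomial (B × B) ℂ), (∀ p ∈ I, ∀ m, ∃ q : ℚ, p.coeff m = q) ∧
    ∀ g : Matrix B B ℂ, (∃ x ∈ T, ∃ y ∈ T, g = x * y⁻¹) ↔ IsUnit g ∧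
      ∀ p ∈ I, MvPolynomial.eval (fun b => g b.1 b.2) p = 0

theorem entry_eq (a b : Fin (2 * g)) : (∑ k, (A.η a k * A.lam b k - A.η b k * A.lam a k)) / (2 * Real.pi * Complex.I) =
    ((A.om (A.bas a) (A.bas b) : ℚ) : ℂ) := by
  rw [A.om_pairing]
  simp only [A.eta_bas, A.per_bas]

theorem columns_eq (Z : J → Fin (2 * g) → ℂ) :
    columns A Z = Pool.Agent.X306.AV.tz A (Matrix.of fun j a => Z j a) := by
  ext i j
  change ∑ a, ∑ b, Z j a * (Pi.single i 1 : Fin (2 * g) → ℂ) b * _ = ∑ a, Z j a * ((A.om (A.bas a) (A.bas i) : ℚ) : ℂ)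
  refine Finset.sum_congr rfl fun a _ => ?_
  rw [Finset.sum_eq_single i]
  · rw [Pi.single_eq_same, mul_one, entry_eq]
  · intro b _ hb
    rw [Pi.single_eq_of_ne hb, mul_zero, zero_mul]
  · intro h
    exact absurd (Finset.mem_univ _) h

theorem riemann_rat (v w : Fin (2 * g) → ℚ) :
    riemann A (fun a => (v a : ℂ)) (fun a => (w a : ℂ)) = ((A.om v w : ℚ) : ℂ) := by
  unfold riemann
  have h1 : ∀ w : Fin (2 * g) → ℚ, w = ∑ a, w a • A.bas a := by
    intro w
    conv_lhs => rw [← A.bas.sum_repr w]
    rfl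
  have h2 : A.om v w = ∑ a, ∑ b, v a * (w b * A.om (A.bas a) (A.bas b)) := by
    conv_lhs => rw [h1 v]
    rw [map_sum, LinearMap.sum_apply]
    refine Finset.sum_congr rfl fun a _ => ?_
    rw [map_smul, LinearMap.smul_apply]
    conv_lhs => rw [h1 w]
    rw [map_sum, smul_eq_mul, Finset.mul_sum]
    refine Finset.sum_congr rfl fun b _ => ?_
    rw [map_smul, smul_eq_mul]
  rw [h2, Rat.cast_sum]
  refine Finset.sum_congr rfl fun a _ => ?_
  rw [Rat.cast_sum]
  refine Finset.sum_congr rfl fun b _ => ?_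
  rw [entry_eq, Rat.cast_mul, Rat.cast_mul]
  ring

theorem rel_iff (u : R → Fin g → ℂ) (q : J → Fin g → ℂ) (Y : R → Fin (2 * g) → ℂ) (Z : J → Fin (2 * g) → ℂ) :
    IsRelated A u q Y Z ↔ Pool.Agent.X306.AV.RelN A u q (Sum.elim Y Z) := Iff.rfl

theorem commutators_eq (u : R → Fin g → ℂ) (q : J → Fin g → ℂ) :
    commutators A u q = Pool.Agent.X306.AV.CmS A u q := by
  have hcast : ∀ (Y : R → Fin (2 * g) → ℚ) (Z : J → Fin (2 * g) → ℚ),
      (Sum.elim (fun r a => ((Y r a : ℚ) : ℂ)) (fun j a => ((Z j a : ℚ) : ℂ)) : R ⊕ J → Fin (2 * g) → ℂ) =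
      fun s a => ((Sum.elim Y Z s a : ℚ) : ℂ) := by
    intro Y Z
    funext s a
    rcases s with s | s <;> rfl
  unfold commutators Pool.Agent.X306.AV.CmS
  congr 1
  ext c
  constructor
  · rintro ⟨Y, Y', Z, Z', h, h', rfl⟩
    refine ⟨Sum.elim Y Z, Sum.elim Y' Z', ?_, ?_, ?_⟩
    · rw [← hcast]
      exact h
    · rw [← hcast]
      exact h'
    · ext r j
      change riemann A _ _ - riemann A _ _ = ((A.om (Z' j) (Y r) - A.om (Z j) (Y' r) : ℚ) : ℂ)
      rw [riemann_rat, riemann_rat, Rat.cast_sub]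
  · rintro ⟨N, N', h, h', rfl⟩
    refine ⟨fun r => N (Sum.inl r), fun r => N' (Sum.inl r), fun j => N (Sum.inr j), fun j => N' (Sum.inr j), ?_, ?_, ?_⟩
    · rw [rel_iff, hcast]
      refine (congrArg (Pool.Agent.X306.AV.RelN A u q) ?_).mp h
      funext s a
      rcases s with s | s <;> rfl
    · rw [rel_iff, hcast]
      refine (congrArg (Pool.Agent.X306.AV.RelN A u q) ?_).mp h'
      funext s a
      rcases s with s | s <;> rfl
    · ext r j
      change ((A.om (N' (Sum.inr j)) (N (Sum.inl r)) - A.om (N (Sum.inr j)) (N' (Sum.inl r)) : ℚ) : ℂ) =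
        riemann A _ _ - riemann A _ _
      rw [riemann_rat, riemann_rat, Rat.cast_sub]

/-- **1-motives with a non-split semiabelian variety.** `A` is an abelian variety over the algebraic numbers, defined over
the number field `F` together with its endomorphisms, the `u r` and `q j` are logarithms of arbitrary points `P_r`, `Q_j` of
`A(F)`, and `e`, `f`, `L` are arbitrary. Let `T` be a subtorsor over the algebraic numbers which contains the period matrix
and whose group is defined over `ℚ`. -/
theorem result (A : AbVar g) (F : IntermediateField ℚ ℂ) (hF : DefinedOver A F) (u e : R → Fin g → ℂ)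
    (hu : ∀ r, u r ∈ points A F) (q f : J → Fin g → ℂ) (hq : ∀ j, q j ∈ points A F) (L : Matrix R J ℂ)
    (T : Set (Matrix (Idx g R J) (Idx g R J) ℂ)) (hT : IsTorsor T) (hG : GroupOverQ T)
    (hc : periodMatrix A u e q f L ∈ T) :
    -- 1
    (∀ Y Z, IsRelated A u q Y Z → ∃ w₀, ∀ c ∈ commutators A u q, ∀ x ∈ T,
      block 1 (columns A Z) 1 (Matrix.of Y) (w₀ + c) * x ∈ T) ∧
    -- 2
    (0 < g → (∀ E : R ⊕ J → (Fin g → ℂ) →ₗ[ℂ] (Fin g → ℂ), (∀ s, ∀ w ∈ lattice A, E s w ∈ lattice A) →
      ∑ s, E s (Sum.elim u q s) ∈ lattice A → ∀ s, E s = 0) →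
      ∀ (Y : R → Fin (2 * g) → ℂ) (Z : J → Fin (2 * g) → ℂ) (w : Matrix R J ℂ), ∀ x ∈ T,
        block 1 (columns A Z) 1 (Matrix.of Y) w * x ∈ T) := by
  have hT' : Pool.Agent.TH127.PT.IsSubtorsor Pool.Agent.W245.EB.QB T := by
    obtain ⟨h1, I, h2, h3⟩ := hT
    exact ⟨fun x hx => ((h3 x).1 hx).1, h1, I, fun p hp m => Pool.Agent.W245.EB.mem_QB.2 (h2 p hp m), h3⟩
  have hG' : Pool.Agent.X306.RL.GDef Pool.Agent.X306.EM.QQ T := by
    obtain ⟨I, hI1, hI2⟩ := hG
    exact ⟨I, fun p hp m => by
      obtain ⟨q, hq⟩ := hI1 p hp m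
      exact Pool.Agent.X306.EM.mem_QQ.2 ⟨q, hq.symm⟩, hI2⟩
  have hPA : abelianPeriods A = Pool.Agent.X306.AV.PA A := by
    ext i j
    change Sum.elim (fun k => A.lam i k) (fun k => A.η i k) (split g j) = A.dR (split g j) (A.bas i)
    rcases split g j with k | k
    · change A.lam i k = A.per (A.bas i) k
      rw [A.per_bas]
    · change A.η i k = A.eta (A.bas i) k
      rw [A.eta_bas]
  have hblock : ∀ X z μ Y w, block (g := g) (R := R) (J := J) X z μ Y w =
      Pool.Agent.X306.AV.sm (X, z, μ, Y, w) 1 := by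
    intro X z μ Y w
    unfold block Pool.Agent.X306.AV.sm
    rw [one_smul]
  have hthird : thirdPeriods A q f = Pool.Agent.X306.AV.PA A * Pool.Agent.X306.AV.sw
      (Matrix.of fun j s => Pool.Agent.X306.AV.UU (q j) (f j) ((Pool.Agent.X306.AV.eqv g).symm s)) := by
    ext i j
    rw [Matrix.mul_apply, Pool.Agent.X306.AV.sum_eqv]
    change ∑ k, (f j k * A.lam i k - A.η i k * q j k) =
      ∑ k, Pool.Agent.X306.AV.PA A i (Pool.Agent.X306.AV.eqv g (Sum.inl k)) * Sum.elim
        (fun k => Pool.Agent.X306.AV.UU (q j) (f j) ((Pool.Agent.X306.AV.eqv g).symm (Pool.Agent.X306.AV.eqv g (Sum.inr k))))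
        (fun k => -Pool.Agent.X306.AV.UU (q j) (f j) ((Pool.Agent.X306.AV.eqv g).symm (Pool.Agent.X306.AV.eqv g (Sum.inl k))))
        ((Pool.Agent.X306.AV.eqv g).symm (Pool.Agent.X306.AV.eqv g (Sum.inl k))) +
      ∑ k, Pool.Agent.X306.AV.PA A i (Pool.Agent.X306.AV.eqv g (Sum.inr k)) * Sum.elim
        (fun k => Pool.Agent.X306.AV.UU (q j) (f j) ((Pool.Agent.X306.AV.eqv g).symm (Pool.Agent.X306.AV.eqv g (Sum.inr k))))
        (fun k => -Pool.Agent.X306.AV.UU (q j) (f j) ((Pool.Agent.X306.AV.eqv g).symm (Pool.Agent.X306.AV.eqv g (Sum.inl k))))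
        ((Pool.Agent.X306.AV.eqv g).symm (Pool.Agent.X306.AV.eqv g (Sum.inr k)))
    simp only [Equiv.symm_apply_apply, Sum.elim_inl, Sum.elim_inr, Pool.Agent.X306.AV.PA_inl,
      Pool.Agent.X306.AV.PA_inr, A.per_bas, A.eta_bas, Pool.Agent.X306.AV.UU]
    rw [← Finset.sum_add_distrib]
    refine Finset.sum_congr rfl fun k _ => ?_
    ring
  have hpm : periodMatrix A u e q f L = Pool.Agent.X306.AV.sm (Pool.Agent.X306.AV.prS u e q f L A) 1 := by
    unfold periodMatrix
    rw [hblock, hPA, hthird]
    rfl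
  rw [hpm] at hc
  have main : ∀ Y Z, IsRelated A u q Y Z → ∃ w₀, ∀ c ∈ commutators A u q, ∀ x ∈ T,
      block 1 (columns A Z) 1 (Matrix.of Y) (w₀ + c) * x ∈ T := by
    intro Y Z hYZ
    obtain ⟨w₀, h⟩ := Pool.Agent.X306.AV.mainN hT' hG' hc ⟨hF.numberField, hF.differentials, hF.add, hF.endo⟩ hu hq
      ((rel_iff A u q Y Z).1 hYZ)
    refine ⟨w₀, fun c hc' x hx => ?_⟩
    rw [commutators_eq] at hc'
    have h1 := h c hc' x hx
    rw [hblock, columns_eq]
    exact h1
  refine ⟨main, fun hg hind Y Z w x hx => ?_⟩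
  have hrel := Pool.Agent.X306.AV.relN_of_indep (A := A) (u := u) (q := q) hind
  obtain ⟨w₀, h⟩ := main Y Z ((rel_iff A u q Y Z).2 (hrel _))
  have h1 := h (w - w₀) (by
    rw [commutators_eq]
    exact Pool.Agent.X306.AV.CmS_top hrel hg _) x hx
  rwa [add_sub_cancel] at h1

end Pool.Agent.X306.Old.SemiabelianOneMotives
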